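import Mathlib
import Pool.Agent.Helper6.Kleitman.Transport

set_option autoImplicit false

/-!
# Explicit weights in Kleitman's flow-down conjecture

Let `F` be a maximal intersecting family of subsets of `Fin n`, let `f = ±1` be its sign function
and `f̂(R) = 2^(-n) ∑_x f(x) (-1)^|R ∩ x|`. For every choice of probability vectors `m R` on the
nonempty sets `R`, the indicator of `F` flows down to `∑ i, w i • d_i`, where
`w i = ∑_{R ∋ i} f̂(R)² m R i`.
-/

namespace Pool.Agent.Results.MP_67d0bb_co.ExplicitWeights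

open Finset Pool.Agent.Helper6.Kleitman

/-- The Walsh (Fourier) coefficient `2^(-n) ∑_x f(x) (-1)^|R ∩ x|` of the sign function `f` of the
family `F` (`f = 1` on `F` and `f = -1` off `F`). -/
noncomputable def walsh {n : ℕ} (F : Finset (Finset (Fin n))) (R : Finset (Fin n)) : ℝ :=
  (∑ x : Finset (Fin n), (if x ∈ F then (1 : ℝ) else -1) * (-1) ^ (R ∩ x).card) / 2 ^ n

/-- The weight `∑_{R ∋ i} f̂(R)² m R i`. -/
noncomputable def weight {n : ℕ} (F : Finset (Finset (Fin n)))
    (m : Finset (Fin n) → Fin n → ℝ) (i : Fin n) : ℝ :=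
  ∑ R ∈ Finset.univ.filter (fun R : Finset (Fin n) => i ∈ R), walsh F R ^ 2 * m R i

variable {n : ℕ}

lemma chi_card (T x : Finset (Fin n)) : ((chi T x : ℤ) : ℝ) = (-1) ^ (T ∩ x).card := by
  unfold chi
  rw [← Finset.prod_filter_mul_prod_filter_not T (fun i => i ∈ x)]
  have h1 : ∏ i ∈ T.filter (fun i => i ∈ x), (if i ∈ x then (-1 : ℤ) else 1)
      = (-1) ^ (T ∩ x).card := by
    rw [← Finset.filter_mem_eq_inter, ← Finset.prod_const]
    apply Finset.prod_congr rfl
    intro i hi
    rw [if_pos (Finset.mem_filter.mp hi).2]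
  have h2 : ∏ i ∈ T.filter (fun i => i ∉ x), (if i ∈ x then (-1 : ℤ) else 1) = 1 := by
    apply Finset.prod_eq_one
    intro i hi
    rw [if_neg (Finset.mem_filter.mp hi).2]
  rw [h1, h2, mul_one]
  push_cast
  rfl

lemma walsh_eq (F : Finset (Finset (Fin n))) (R : Finset (Fin n)) :
    walsh F R = (fz F R : ℝ) / 2 ^ n := by
  unfold walsh fz
  congr 1
  push_cast
  apply Finset.sum_congr rfl
  intro x _
  rw [← chi_card]
  unfold sgn
  split_ifs <;> push_cast <;> rfl

lemma walsh_sq (F : Finset (Finset (Fin n))) (R : Finset (Fin n)) :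
    walsh F R ^ 2 = ((fz F R).natAbs ^ 2 : ℕ) / (4 ^ n : ℝ) := by
  rw [walsh_eq, div_pow, ← pow_mul, mul_comm n 2, pow_mul]
  have h : (((fz F R).natAbs ^ 2 : ℕ) : ℝ) = (fz F R : ℝ) ^ 2 := by
    rw [Nat.cast_pow, Nat.cast_natAbs, Int.cast_abs, sq_abs]
  rw [h]
  norm_num

/-- The deterministic version: one chosen element of each nonempty set. -/
lemma det {F : Finset (Finset (Fin n))} (hF : AU F)
    (pick : Finset (Fin n) → Fin n) (hpick : ∀ R : Finset (Fin n), R.Nonempty → pick R ∈ R) :
    ∃ v : Finset (Fin n) → Finset (Fin n) → ℝ,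
      (∀ A B, 0 ≤ v A B) ∧
      (∀ A, (∑ B, v A B) = if A ∈ F then (1 : ℝ) else 0) ∧
      (∀ B, (∑ A, v A B) = ∑ R, (if pick R ∈ B then walsh F R ^ 2 else 0)) ∧
      (∀ A B, ¬ B ⊆ A → v A B = 0) := by
  classical
  obtain ⟨v, hv1, hv2, hv3, hv4⟩ := transport F (4 ^ n) (by positivity)
    (fun B => ∑ i ∈ B, Lam F pick i)
    (fun D hD => flow_ineq hF hD pick hpick) (flow_total hF pick)
  refine ⟨v, hv1, hv2, ?_, hv4⟩
  intro B
  rw [hv3 B]
  have h1 : ∑ i ∈ B, Lam F pick i
      = ∑ R, (if pick R ∈ B then (fz F R).natAbs ^ 2 else 0) := by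
    have h := sum_over_D F {B} pick
    rw [Finset.sum_singleton] at h
    rw [h]
    apply Finset.sum_congr rfl
    intro R _
    by_cases hR : pick R ∈ B
    · rw [if_pos hR, Finset.filter_singleton, if_pos hR, Finset.card_singleton, mul_one]
    · rw [if_neg hR, Finset.filter_singleton, if_neg hR, Finset.card_empty, mul_zero]
  rw [h1]
  push_cast
  rw [Finset.sum_div]
  apply Finset.sum_congr rfl
  intro R _
  rw [walsh_sq]
  split_ifs
  · push_cast
    rfl
  · simp

/-- Probability vectors on the index type, from the given ones. -/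
noncomputable def pv (i0 : Fin n) (m : Finset (Fin n) → Fin n → ℝ) (R : Finset (Fin n))
    (i : Fin n) : ℝ :=
  if R.Nonempty then (if i ∈ R then m R i else 0) else (if i = i0 then 1 else 0)

lemma pv_nonneg (i0 : Fin n) {m : Finset (Fin n) → Fin n → ℝ} (h0 : ∀ R i, i ∈ R → 0 ≤ m R i)
    (R : Finset (Fin n)) (i : Fin n) : 0 ≤ pv i0 m R i := by
  unfold pv
  split_ifs with h1 h2
  · exact h0 R i h2
  · exact le_refl 0
  · exact zero_le_one
  · exact le_refl 0

lemma pv_sum (i0 : Fin n) {m : Finset (Fin n) → Fin n → ℝ}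
    (h1 : ∀ R : Finset (Fin n), R.Nonempty → ∑ i ∈ R, m R i = 1)
    (R : Finset (Fin n)) : ∑ i, pv i0 m R i = 1 := by
  unfold pv
  by_cases h : R.Nonempty
  · simp only [h, if_true]
    rw [Finset.sum_ite_mem, Finset.univ_inter]
    exact h1 R h
  · simp only [h, if_false]
    rw [Finset.sum_ite_eq' Finset.univ i0]
    simp

/-- Product weight of a choice function. -/
noncomputable def pw (i0 : Fin n) (m : Finset (Fin n) → Fin n → ℝ)
    (pick : Finset (Fin n) → Fin n) : ℝ := ∏ R, pv i0 m R (pick R)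

lemma pw_sum (i0 : Fin n) {m : Finset (Fin n) → Fin n → ℝ}
    (h1 : ∀ R : Finset (Fin n), R.Nonempty → ∑ i ∈ R, m R i = 1) :
    ∑ pick, pw i0 m pick = 1 := by
  classical
  unfold pw
  have h := (Finset.prod_univ_sum (fun _ : Finset (Fin n) => (Finset.univ : Finset (Fin n)))
    (fun R i => pv i0 m R i)).symm
  rw [Fintype.piFinset_univ] at h
  rw [h]
  apply Finset.prod_eq_one
  intro R _
  exact pv_sum i0 h1 R

lemma pw_marg (i0 : Fin n) {m : Finset (Fin n) → Fin n → ℝ}
    (h1 : ∀ R : Finset (Fin n), R.Nonempty → ∑ i ∈ R, m R i = 1)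
    (R : Finset (Fin n)) (i : Fin n) :
    ∑ pick : Finset (Fin n) → Fin n, (if pick R = i then pw i0 m pick else 0) = pv i0 m R i := by
  classical
  have h := (Finset.prod_univ_sum (fun _ : Finset (Fin n) => (Finset.univ : Finset (Fin n)))
    (fun R' j => if R' = R then (if j = i then pv i0 m R' j else 0) else pv i0 m R' j)).symm
  rw [Fintype.piFinset_univ] at h
  have e1 : ∀ pick : Finset (Fin n) → Fin n,
      (if pick R = i then pw i0 m pick else 0)
        = ∏ R', (if R' = R then (if pick R' = i then pv i0 m R' (pick R') else 0)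
            else pv i0 m R' (pick R')) := by
    intro pick
    by_cases hp : pick R = i
    · rw [if_pos hp]
      unfold pw
      apply Finset.prod_congr rfl
      intro R' _
      by_cases hR : R' = R
      · subst hR
        rw [if_pos rfl, if_pos hp]
      · rw [if_neg hR]
    · rw [if_neg hp]
      symm
      apply Finset.prod_eq_zero (Finset.mem_univ R)
      rw [if_pos rfl, if_neg hp]
  rw [Finset.sum_congr rfl (fun pick _ => e1 pick), h]
  rw [Finset.prod_eq_single R]
  · simp only [if_true]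
    rw [Finset.sum_ite_eq' Finset.univ i]
    simp
  · intro R' _ hR'
    simp only [hR', if_false]
    exact pv_sum i0 h1 R'
  · intro h2
    exact absurd (Finset.mem_univ R) h2

lemma pw_valid (i0 : Fin n) {m : Finset (Fin n) → Fin n → ℝ}
    {pick : Finset (Fin n) → Fin n} (h : pw i0 m pick ≠ 0) :
    ∀ R : Finset (Fin n), R.Nonempty → pick R ∈ R := by
  intro R hR
  by_contra hc
  apply h
  unfold pw
  apply Finset.prod_eq_zero (Finset.mem_univ R)
  unfold pv
  rw [if_pos hR, if_neg hc]

lemma walsh_empty {F : Finset (Finset (Fin n))} (hF : AU F) : walsh F ∅ = 0 := by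
  rw [walsh_eq, fz_empty hF]
  simp

lemma weight_eq (i0 : Fin n) {F : Finset (Finset (Fin n))} (hF : AU F)
    (m : Finset (Fin n) → Fin n → ℝ) (i : Fin n) :
    ∑ R, walsh F R ^ 2 * pv i0 m R i = weight F m i := by
  classical
  unfold weight
  rw [Finset.sum_filter]
  apply Finset.sum_congr rfl
  intro R _
  by_cases hR : R.Nonempty
  · unfold pv
    rw [if_pos hR]
    split_ifs <;> simp
  · rw [Finset.not_nonempty_iff_eq_empty] at hR
    subst hR
    rw [walsh_empty hF]
    simp

lemma walsh_parseval (F : Finset (Finset (Fin n))) : ∑ R, walsh F R ^ 2 = 1 := by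
  have h := parseval F
  have h2 : ∑ R, ((fz F R : ℝ)) ^ 2 = 4 ^ n := by exact_mod_cast h
  have h3 : ∀ R, walsh F R ^ 2 = (fz F R : ℝ) ^ 2 / 4 ^ n := by
    intro R
    rw [walsh_eq, div_pow, ← pow_mul, mul_comm n 2, pow_mul]
    norm_num
  simp_rw [h3]
  rw [← Finset.sum_div, h2]
  exact div_self (by positivity)

/-- For every maximal intersecting family `F` of subsets of `Fin n` and every choice of a
probability vector `m R` on each nonempty set `R`, the numbers
`w i = ∑_{R ∋ i} f̂(R)² m R i` are convex weights and the indicator of `F` flows down to the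
corresponding convex combination of dictatorships. -/
theorem result : ∀ n : ℕ, 0 < n →
    ∀ F : Finset (Finset (Fin n)),
      (∀ A ∈ F, ∀ B ∈ F, (A ∩ B).Nonempty) →
      (∀ G : Finset (Finset (Fin n)), F ⊆ G →
          (∀ A ∈ G, ∀ B ∈ G, (A ∩ B).Nonempty) → G = F) →
      ∀ m : Finset (Fin n) → Fin n → ℝ,
        (∀ R : Finset (Fin n), ∀ i ∈ R, 0 ≤ m R i) →
        (∀ R : Finset (Fin n), R.Nonempty → ∑ i ∈ R, m R i = 1) →
        (∀ i, 0 ≤ weight F m i) ∧ (∑ i, weight F m i) = 1 ∧
        ∃ v : Finset (Fin n) → Finset (Fin n) → ℝ,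
          (∀ A B, 0 ≤ v A B) ∧
          (∀ A, (∑ B, v A B) = if A ∈ F then (1 : ℝ) else 0) ∧
          (∀ B, (∑ A, v A B) = ∑ i, if i ∈ B then weight F m i else 0) ∧
          (∀ A B, ¬ B ⊆ A → v A B = 0) := by
  classical
  intro n hn F hint hmax m hm0 hm1
  have hF := au_of_maximal hn F hint hmax
  have i0 : Fin n := ⟨0, hn⟩
  have hmn : ∀ R i, i ∈ R → 0 ≤ m R i := fun R i hi => hm0 R i hi
  have hex : ∀ pick : Finset (Fin n) → Fin n, ∃ v : Finset (Fin n) → Finset (Fin n) → ℝ,
      pw i0 m pick ≠ 0 →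
      ((∀ A B, 0 ≤ v A B) ∧
      (∀ A, (∑ B, v A B) = if A ∈ F then (1 : ℝ) else 0) ∧
      (∀ B, (∑ A, v A B) = ∑ R, (if pick R ∈ B then walsh F R ^ 2 else 0)) ∧
      (∀ A B, ¬ B ⊆ A → v A B = 0)) := by
    intro pick
    by_cases h : pw i0 m pick = 0
    · exact ⟨fun _ _ => 0, fun hc => absurd h hc⟩
    · obtain ⟨v, hv⟩ := det hF pick (pw_valid i0 h)
      exact ⟨v, fun _ => hv⟩
  choose v hv using hex
  have hpw0 : ∀ pick, 0 ≤ pw i0 m pick := fun pick =>
    Finset.prod_nonneg (fun R _ => pv_nonneg i0 hmn R (pick R))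
  refine ⟨?_, ?_, fun A B => ∑ pick, pw i0 m pick * v pick A B, ?_, ?_, ?_, ?_⟩
  · intro i
    unfold weight
    apply Finset.sum_nonneg
    intro R hR
    exact mul_nonneg (sq_nonneg _) (hm0 R i (Finset.mem_filter.mp hR).2)
  · simp_rw [← weight_eq i0 hF m]
    rw [Finset.sum_comm]
    simp_rw [← Finset.mul_sum, pv_sum i0 hm1, mul_one]
    exact walsh_parseval F
  · intro A B
    apply Finset.sum_nonneg
    intro pick _
    by_cases h : pw i0 m pick = 0
    · rw [h, zero_mul]
    · exact mul_nonneg (hpw0 pick) ((hv pick h).1 A B)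
  · intro A
    show ∑ B, ∑ pick, pw i0 m pick * v pick A B = _
    rw [Finset.sum_comm]
    have h1 : ∀ pick ∈ (Finset.univ : Finset (Finset (Fin n) → Fin n)),
        ∑ B, pw i0 m pick * v pick A B = pw i0 m pick * (if A ∈ F then (1 : ℝ) else 0) := by
      intro pick _
      rw [← Finset.mul_sum]
      by_cases h : pw i0 m pick = 0
      · rw [h, zero_mul, zero_mul]
      · rw [(hv pick h).2.1 A]
    rw [Finset.sum_congr rfl h1, ← Finset.sum_mul, pw_sum i0 hm1, one_mul]
  · intro B
    show ∑ A, ∑ pick, pw i0 m pick * v pick A B = _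
    rw [Finset.sum_comm]
    have h1 : ∀ pick ∈ (Finset.univ : Finset (Finset (Fin n) → Fin n)),
        ∑ A, pw i0 m pick * v pick A B
          = ∑ R, ∑ i ∈ B, walsh F R ^ 2 * (if pick R = i then pw i0 m pick else 0) := by
      intro pick _
      rw [← Finset.mul_sum]
      by_cases h : pw i0 m pick = 0
      · rw [h, zero_mul]
        symm
        apply Finset.sum_eq_zero
        intro R _
        apply Finset.sum_eq_zero
        intro i _
        simp
      · rw [(hv pick h).2.2.1 B, Finset.mul_sum]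
        apply Finset.sum_congr rfl
        intro R _
        rw [← Finset.mul_sum, Finset.sum_ite_eq]
        split_ifs
        · ring
        · ring
    rw [Finset.sum_congr rfl h1, Finset.sum_comm]
    have h2 : ∀ R ∈ (Finset.univ : Finset (Finset (Fin n))),
        ∑ pick : Finset (Fin n) → Fin n, ∑ i ∈ B, walsh F R ^ 2 * (if pick R = i then pw i0 m pick else 0)
          = ∑ i ∈ B, walsh F R ^ 2 * pv i0 m R i := by
      intro R _
      rw [Finset.sum_comm]
      apply Finset.sum_congr rfl
      intro i _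
      rw [← Finset.mul_sum, pw_marg i0 hm1 R i]
    rw [Finset.sum_congr rfl h2, Finset.sum_comm, Finset.sum_ite_mem, Finset.univ_inter]
    apply Finset.sum_congr rfl
    intro i _
    exact weight_eq i0 hF m i
  · intro A B hAB
    show ∑ pick, pw i0 m pick * v pick A B = 0
    apply Finset.sum_eq_zero
    intro pick _
    by_cases h : pw i0 m pick = 0
    · rw [h, zero_mul]
    · rw [(hv pick h).2.2.2 A B hAB, mul_zero]

end Pool.Agent.Results.MP_67d0bb_co.ExplicitWeights
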